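import Mathlib
import Pool.Agent.Y135.BQg

/-!
# Reduced curves with a `t`-fold point: ten points suffice for a counterexample

The starting result `BasePointOfCubics` refutes the statement of Q1 for every `t ≥ 3`, with
`r = t + 8` points.  Here: for every `t ≥ 5` the statement fails for EVERY number `r ≥ 10` of points,
and for `t = 3, 4` it fails for every `r ≥ 11`.

* For `t ≥ 5` the class is `3t H - (t+1) E_1 - t (E_2 + ⋯ + E_7) - (t-1) E_8 - E_9 - E_10`.
  Let `G` (resp. `H`) be the cubic through `p_2, …, p_7` with a double point at `p_1` (resp. `p_8`),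
  let `x` be one of the points of `G ∩ H` other than `p_2, …, p_7` and `C` the cubic through
  `p_1, …, p_8, x`.  Then `2C` and `G + H` generate a pencil of sextics with double points at
  `p_1, …, p_8, x` (a Halphen pencil of index two).  The curve is the sum of the two members of the
  pencil through `p_9` and `p_10`, of further general members, of `G` and, for `t` even, of `C`.
* For `t ≥ 3` and `r ≥ 11` the class is `3t H - t (E_1 + ⋯ + E_8) - E_9 - E_10 - E_11` and the curve
  is a sum of `t` members of the pencil of cubics through `p_1, …, p_8`.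

In both cases the expected number of conditions is exactly the bound of the question:
`binom(d+2, 2) - ∑ binom(m_i+1, 2) = binom(t+1, 2) - 2`.

The definitions `mult`, `pt` and `HasReducedCurve` are those of the starting library
(`Pool.Agent.H4R3.RCa`, `RCb`, `RCd`): `HasReducedCurve r d t m p` says that there is a squarefree
form `F` of degree `d` with multiplicity exactly `m i` at each point `p i` and multiplicity exactly
`t` at some point `x` of the plane different from all `p i`.
-/

open MvPolynomial H4RC

namespace Pool.Agent.Results.MP_b1ca72_ag.TenPoints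

/-- **Main theorem.**  Let `t ≥ 5` and `r ≥ 10`, or `t ≥ 3` and `r ≥ 11`.  There are `d ≥ 1` and
`m_1, …, m_r ≥ 0` satisfying the numerical inequality of the question such that the set of
configurations `(p_1, …, p_r)` of points of the plane for which `|d H - ∑ m_i E_i|` contains a
REDUCED curve with a point of multiplicity `t` is not contained in any countable union of proper
Zariski-closed subsets: given any countable set `S` of nonzero polynomials in the `2 r` affine
coordinates of the points, there is a configuration of distinct points at which no element of `S`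
vanishes and for which such a reduced curve exists. -/
theorem result (t r : ℕ) (htr : (5 ≤ t ∧ 10 ≤ r) ∨ (3 ≤ t ∧ 11 ≤ r)) :
    ∃ (d : ℕ) (m : Fin r → ℕ), 1 ≤ d ∧
      (((d + 2).choose 2 : ℕ) : ℤ) - ∑ i, (((m i + 1).choose 2 : ℕ) : ℤ)
        ≤ max ((((t + 1).choose 2 : ℕ) : ℤ) - 2) 0 ∧
      ∀ S : Set (MvPolynomial (Fin r × Fin 2) ℂ), S.Countable →
        (0 : MvPolynomial (Fin r × Fin 2) ℂ) ∉ S →
        ∃ p : Fin r → Fin 2 → ℂ,
          (∀ g ∈ S, MvPolynomial.eval (fun ij : Fin r × Fin 2 => p ij.1 ij.2) g ≠ 0) ∧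
          Function.Injective p ∧ HasReducedCurve r d t m p := by
  obtain ⟨s, rfl⟩ : ∃ s, r = 8 + s := ⟨r - 8, by omega⟩
  rcases htr with ⟨ht, hr⟩ | ⟨ht, hr⟩
  · refine ⟨3 * t, Fin.addCases (![t + 1, t, t, t, t, t, t, t - 1] : Fin 8 → ℕ)
      (fun k => if k.val < 2 then 1 else 0), by omega, ?_,
      fun S hS h0 => Pool.Agent.Y135.BQ.ten t s ht S hS h0⟩
    apply le_max_of_le_left
    rw [Fin.sum_univ_add]
    simp only [Fin.addCases_left, Fin.addCases_right]
    rw [Pool.Agent.Y135.BQ.sum_ones s 2 (by omega)]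
    obtain ⟨u, rfl⟩ : ∃ u, t = u + 1 := ⟨t - 1, by omega⟩
    simp only [Fin.sum_univ_eight, Nat.add_sub_cancel]
    have h2 : (((3 * (u + 1) + 2).choose 2 : ℕ) : ℚ) - ((((u + 1 + 1 + 1).choose 2 : ℕ) : ℚ)
        + 6 * (((u + 1 + 1).choose 2 : ℕ) : ℚ) + (((u + 1).choose 2 : ℕ) : ℚ) + 2)
        ≤ (((u + 1 + 1).choose 2 : ℕ) : ℚ) - 2 := by
      rw [Nat.cast_choose_two, Nat.cast_choose_two, Nat.cast_choose_two, Nat.cast_choose_two]
      push_cast
      nlinarith
    have h3 : (((3 * (u + 1) + 2).choose 2 : ℕ) : ℤ) - ((((u + 1 + 1 + 1).choose 2 : ℕ) : ℤ)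
        + 6 * (((u + 1 + 1).choose 2 : ℕ) : ℤ) + (((u + 1).choose 2 : ℕ) : ℤ) + 2)
        ≤ (((u + 1 + 1).choose 2 : ℕ) : ℤ) - 2 := by exact_mod_cast h2
    refine le_trans (le_of_eq ?_) h3
    simp [Matrix.cons_val_two, Matrix.cons_val_three, Matrix.vecHead, Matrix.vecTail]
    ring
  · refine ⟨3 * t, Fin.addCases (fun _ => t : Fin 8 → ℕ) (fun k => if k.val < 3 then 1 else 0),
      by omega, ?_, fun S hS h0 => Pool.Agent.Y135.BQ.eleven t s ht S hS h0⟩
    apply le_max_of_le_left
    rw [Fin.sum_univ_add]
    simp only [Fin.addCases_left, Fin.addCases_right]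
    rw [Pool.Agent.Y135.BQ.sum_ones s 3 (by omega)]
    simp only [Finset.sum_const, Finset.card_univ, Fintype.card_fin, nsmul_eq_mul]
    have h2 : (((3 * t + 2).choose 2 : ℕ) : ℚ) - (8 * (((t + 1).choose 2 : ℕ) : ℚ) + 3)
        ≤ (((t + 1).choose 2 : ℕ) : ℚ) - 2 := by
      rw [Nat.cast_choose_two, Nat.cast_choose_two]
      push_cast
      nlinarith
    exact_mod_cast h2

end Pool.Agent.Results.MP_b1ca72_ag.TenPoints
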